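import Pool.Agent.H12.UCR.Stmts

/-!
Row ATO: no atoms.
-/

set_option autoImplicit false

open MeasureTheory Filter Topology

namespace Pool.UCR

/-- the test function `1 / (1 + M ‖D y‖)` -/
noncomputable def atoF (D M : ℕ) : C(UnitAddCircle, ℝ) where
  toFun := fun y => 1 / (1 + (M : ℝ) * ‖D • y‖)
  continuous_toFun := by
    refine Continuous.div continuous_const (by fun_prop) (fun y => ?_)
    have := norm_nonneg (D • y)
    positivity

lemma atoF_apply (D M : ℕ) (y : UnitAddCircle) : atoF D M y = 1 / (1 + (M : ℝ) * ‖D • y‖) := rfl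

lemma atoF_nonneg (D M : ℕ) (y : UnitAddCircle) : 0 ≤ atoF D M y := by
  rw [atoF_apply]; positivity

lemma atoF_le (D M : ℕ) (y : UnitAddCircle) : atoF D M y ≤ 1 := by
  rw [atoF_apply, div_le_one (by positivity)]
  have : 0 ≤ (M : ℝ) * ‖D • y‖ := by positivity
  linarith

lemma atoF_one (D M : ℕ) (y : UnitAddCircle) (h : D • y = 0) : atoF D M y = 1 := by
  rw [atoF_apply, h, norm_zero, mul_zero, add_zero, div_one]

lemma ato_vol (D : ℕ) (hD : D ≠ 0) : (volume : Measure UnitAddCircle) {y | D • y = 0} = 0 := by
  have h0 : (volume : Measure UnitAddCircle) {(0 : UnitAddCircle)} = 0 := by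
    have := AddCircle.volume_closedBall (T := 1) (x := 0) 0
    rw [Metric.closedBall_zero] at this
    rw [this]
    simp
  have hmp : MeasurePreserving (fun y : UnitAddCircle => (D : ℤ) • y) volume volume :=
    Measure.measurePreserving_zsmul volume (by exact_mod_cast hD)
  have := hmp.measure_preimage (s := {(0 : UnitAddCircle)})
    (measurableSet_singleton _).nullMeasurableSet
  rw [h0] at this
  rw [← this]
  congr 1

lemma ato_lim (D : ℕ) (hD : D ≠ 0) :
    Tendsto (fun M : ℕ => ∫ y, atoF D M y ∂(volume : Measure UnitAddCircle)) atTop (𝓝 0) := by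
  have h : Tendsto (fun M : ℕ => ∫ y, atoF D M y ∂(volume : Measure UnitAddCircle)) atTop
      (𝓝 (∫ _y, (0 : ℝ) ∂(volume : Measure UnitAddCircle))) := by
    refine tendsto_integral_of_dominated_convergence (fun _ => (1 : ℝ)) ?_ ?_ ?_ ?_
    · intro M
      exact (atoF D M).continuous.aestronglyMeasurable
    · exact integrable_const _
    · intro M
      filter_upwards with y
      rw [Real.norm_eq_abs, abs_of_nonneg (atoF_nonneg D M y)]
      exact atoF_le D M y
    · have hae : ∀ᵐ y ∂(volume : Measure UnitAddCircle), D • y ≠ 0 := by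
        rw [ae_iff]
        simpa using ato_vol D hD
      filter_upwards [hae] with y hy
      have hpos : 0 < ‖D • y‖ := norm_pos_iff.mpr hy
      simp only [atoF_apply]
      have h1 : Tendsto (fun M : ℕ => 1 + (M : ℝ) * ‖D • y‖) atTop atTop :=
        tendsto_atTop_add_const_left _ _
          ((tendsto_natCast_atTop_atTop (R := ℝ)).atTop_mul_const hpos)
      have h2 := h1.inv_tendsto_atTop
      refine h2.congr (fun M => ?_)
      rw [Pi.inv_apply, one_div]
  simpa using h

theorem ato_thm : ATOS := by
  intro p q μ hp hE x
  by_contra hx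
  have step : ∀ y : UnitAddCircle,
      ((μ.1 : ProbabilityMeasure UnitAddCircle) : Measure UnitAddCircle) {y} ≤
        ((μ.1 : ProbabilityMeasure UnitAddCircle) : Measure UnitAddCircle) {p • y} := by
    intro y
    have hmeas : Measurable (fun z : UnitAddCircle => p • z) := by
      have : Continuous (fun z : UnitAddCircle => p • z) := by fun_prop
      exact this.measurable
    calc ((μ.1 : ProbabilityMeasure UnitAddCircle) : Measure UnitAddCircle) {y}
        ≤ ((μ.1 : ProbabilityMeasure UnitAddCircle) : Measure UnitAddCircle)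
          ((fun z : UnitAddCircle => p • z) ⁻¹' {p • y}) := by
          apply measure_mono
          intro z hz
          rw [Set.mem_singleton_iff] at hz
          rw [Set.mem_preimage, Set.mem_singleton_iff, hz]
      _ = (((μ.1 : ProbabilityMeasure UnitAddCircle) : Measure UnitAddCircle).map
          (fun z : UnitAddCircle => p • z)) {p • y} :=
          (Measure.map_apply hmeas (measurableSet_singleton _)).symm
      _ = ((μ.1 : ProbabilityMeasure UnitAddCircle) : Measure UnitAddCircle) {p • y} := by
          rw [μ.2]
  have pw : ∀ i : ℕ, ((μ.1 : ProbabilityMeasure UnitAddCircle) : Measure UnitAddCircle) {x} ≤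
      ((μ.1 : ProbabilityMeasure UnitAddCircle) : Measure UnitAddCircle) {p ^ i • x} := by
    intro i
    induction i with
    | zero => simp
    | succ i ih =>
      rw [pow_succ', mul_smul]
      exact ih.trans (step _)
  have ninj : ¬ Function.Injective (fun i : ℕ => p ^ i • x) := by
    intro hinj
    have h1 := tsum_meas_le_meas_iUnion_of_disjoint
      ((μ.1 : ProbabilityMeasure UnitAddCircle) : Measure UnitAddCircle)
      (As := fun i : ℕ => {p ^ i • x}) (fun i => measurableSet_singleton _)
      (by
        intro i j hij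
        rw [Function.onFun, Set.disjoint_singleton]
        exact fun h => hij (hinj h))
    have h2 : ∑' _i : ℕ, ((μ.1 : ProbabilityMeasure UnitAddCircle) :
        Measure UnitAddCircle) {x} = ⊤ := ENNReal.tsum_const_eq_top_of_ne_zero hx
    have h3 : (⊤ : ENNReal) ≤ ∑' i : ℕ, ((μ.1 : ProbabilityMeasure UnitAddCircle) :
        Measure UnitAddCircle) {p ^ i • x} := by
      rw [← h2]
      exact ENNReal.tsum_le_tsum pw
    exact (measure_lt_top ((μ.1 : ProbabilityMeasure UnitAddCircle) : Measure UnitAddCircle) _).ne
      (top_le_iff.mp (h3.trans h1))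
  have hD : ∃ D : ℕ, D ≠ 0 ∧ D • x = 0 := by
    have key : ∀ i j : ℕ, i < j → p ^ i • x = p ^ j • x → ∃ D : ℕ, D ≠ 0 ∧ D • x = 0 := by
      intro i j hij h
      have hlt : p ^ i < p ^ j := Nat.pow_lt_pow_right (by omega) hij
      refine ⟨p ^ j - p ^ i, by omega, ?_⟩
      have h1 : (p ^ j - p ^ i + p ^ i) • x = p ^ j • x := by
        rw [Nat.sub_add_cancel hlt.le]
      rw [add_smul, h, add_eq_right] at h1
      exact h1
    unfold Function.Injective at ninj
    push Not at ninj
    obtain ⟨i, j, h, hij⟩ := ninj
    rcases lt_or_gt_of_ne hij with hl | hl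
    · exact key i j hl h
    · exact key j i hl h.symm
  obtain ⟨D, hD0, hDx⟩ := hD
  have hc : 0 < (((μ.1 : ProbabilityMeasure UnitAddCircle) : Measure UnitAddCircle) {x}).toReal :=
    ENNReal.toReal_pos hx (measure_ne_top _ _)
  have hle : ∀ M : ℕ, (((μ.1 : ProbabilityMeasure UnitAddCircle) :
      Measure UnitAddCircle) {x}).toReal ≤ ∫ y, atoF D M y ∂(volume : Measure UnitAddCircle) := by
    intro M
    have hn : ∀ n : ℕ, (((μ.1 : ProbabilityMeasure UnitAddCircle) :
        Measure UnitAddCircle) {x}).toReal ≤ ∫ y, atoF D M ((q ^ n) • y)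
          ∂((μ.1 : ProbabilityMeasure UnitAddCircle) : Measure UnitAddCircle) := by
      intro n
      have hcont : Continuous (fun y : UnitAddCircle => atoF D M ((q ^ n) • y)) :=
        (atoF D M).continuous.comp (by fun_prop)
      have hint : Integrable (fun y : UnitAddCircle => atoF D M ((q ^ n) • y))
          ((μ.1 : ProbabilityMeasure UnitAddCircle) : Measure UnitAddCircle) :=
        hcont.integrable_of_hasCompactSupport (HasCompactSupport.of_compactSpace _)
      have hind : ∫ y, Set.indicator {x} (fun _ => (1 : ℝ)) y
          ∂((μ.1 : ProbabilityMeasure UnitAddCircle) : Measure UnitAddCircle) =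
          (((μ.1 : ProbabilityMeasure UnitAddCircle) : Measure UnitAddCircle) {x}).toReal := by
        rw [integral_indicator (measurableSet_singleton _), setIntegral_const, smul_eq_mul, mul_one]
        rfl
      rw [← hind]
      apply integral_mono _ hint
      · intro y
        by_cases hy : y = x
        · subst hy
          rw [Set.indicator_of_mem (Set.mem_singleton _)]
          refine le_of_eq (atoF_one D M _ ?_).symm
          rw [smul_comm, hDx, smul_zero]
        · rw [Set.indicator_of_notMem (by simpa using hy)]
          exact atoF_nonneg _ _ _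
      · exact (integrable_const (1 : ℝ)).indicator (measurableSet_singleton _)
    refine ge_of_tendsto (hE (atoF D M)) ?_
    filter_upwards [eventually_ge_atTop 1] with N hN
    have hNpos : (0 : ℝ) < N := by exact_mod_cast hN
    rw [← div_eq_inv_mul, le_div_iff₀ hNpos]
    calc (((μ.1 : ProbabilityMeasure UnitAddCircle) : Measure UnitAddCircle) {x}).toReal * N
        = ∑ n ∈ Finset.range N, (((μ.1 : ProbabilityMeasure UnitAddCircle) :
          Measure UnitAddCircle) {x}).toReal := by
          rw [Finset.sum_const, Finset.card_range, nsmul_eq_mul, mul_comm]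
      _ ≤ _ := Finset.sum_le_sum (fun n _ => hn n)
  have := ge_of_tendsto' (ato_lim D hD0) hle
  linarith

end Pool.UCR
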